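import Pool.Agent.E8helper92.FS.Stm

/-! Project FS, piece MIN. -/

set_option autoImplicit false

namespace Pool.Agent.E8helper52.FS

open Pool.Agent.Helper894.FS
open Pool.Agent.E8helper92.FS

theorem isOpen_cyl {A : Type} [TopologicalSpace A] [DiscreteTopology A] (n : ℕ) (k : ℤ)
    (w : ℕ → A) : IsOpen {z : ℤ → A | ∀ i : ℕ, i < n → z (k + i) = w i} := by
  have h : {z : ℤ → A | ∀ i : ℕ, i < n → z (k + i) = w i} =
      ⋂ i : Fin n, (fun z : ℤ → A => z (k + ((i : ℕ) : ℤ))) ⁻¹' {w i} := by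
    ext z
    simp only [Set.mem_setOf_eq, Set.mem_iInter, Set.mem_preimage, Set.mem_singleton_iff]
    exact ⟨fun h i => h i i.2, fun h i hi => h ⟨i, hi⟩⟩
  rw [h]
  exact isOpen_iInter_of_finite fun i => (isOpen_discrete _).preimage (continuous_apply _)

theorem isClosed_SF {A : Type} [TopologicalSpace A] [DiscreteTopology A] (F : Set (List A)) :
    IsClosed (SF F) := by
  have h : SF F = ⋂ w ∈ F, ⋂ n : ℤ,
      {z : ℤ → A | ∀ (i : ℕ) (h : i < w.length), z (n + i) = w[i]}ᶜ := by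
    ext z
    simp only [SF, Occurs, Set.mem_setOf_eq, Set.mem_iInter, Set.mem_compl_iff, not_exists]
  rw [h]
  refine isClosed_biInter fun w _ => isClosed_iInter fun n => IsOpen.isClosed_compl ?_
  have h2 : {z : ℤ → A | ∀ (i : ℕ) (h : i < w.length), z (n + i) = w[i]} =
      ⋂ i : Fin w.length, (fun z : ℤ → A => z (n + ((i : ℕ) : ℤ))) ⁻¹' {w[i]} := by
    ext z
    simp only [Set.mem_setOf_eq, Set.mem_iInter, Set.mem_preimage, Set.mem_singleton_iff]
    exact ⟨fun h i => h i i.2, fun h i hi => h ⟨i, hi⟩⟩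
  rw [h2]
  exact isOpen_iInter_of_finite fun i => (isOpen_discrete _).preimage (continuous_apply _)

theorem minsub : S_MIN := by
  intro A hA F x hx
  letI : TopologicalSpace A := ⊥
  haveI : DiscreteTopology A := ⟨rfl⟩
  haveI : Finite A := hA
  have hCl : ∀ M : Set (ℤ → A), Cl M ↔ IsClosed M := fun M => Iff.rfl
  set K : Set (ℤ → A) := closure (Set.range (fun k : ℤ => sh k x)) with hK
  have hKs : K ⊆ SF F := closure_minimal (by
    rintro _ ⟨k, rfl⟩
    exact sh_mem k hx) (isClosed_SF F)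
  have hKsub : IsSub K := by
    refine ⟨⟨sh 0 x, subset_closure ⟨0, rfl⟩⟩, (hCl K).2 isClosed_closure, ?_⟩
    intro k y hy
    refine map_mem_closure (continuous_sh k) hy ?_
    rintro _ ⟨j, rfl⟩
    exact ⟨k + j, (sh_sh k j x).symm⟩
  obtain ⟨M, hMK, hM⟩ := zorn_superset_nonempty {M : Set (ℤ → A) | IsSub M} (by
    intro c hc hchain hne
    refine ⟨⋂₀ c, ⟨?_, (hCl _).2 (isClosed_sInter fun s hs => (hCl s).1 (hc hs).2.1), ?_⟩,
      fun s hs => Set.sInter_subset_of_mem hs⟩
    · haveI : Nonempty c := hne.to_subtype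
      refine IsCompact.nonempty_sInter_of_directed_nonempty_isCompact_isClosed ?_ ?_ ?_ ?_
      · intro s hs t ht
        rcases hchain.total hs ht with h | h
        · exact ⟨s, hs, Set.Subset.refl _, h⟩
        · exact ⟨t, ht, h, Set.Subset.refl _⟩
      · exact fun s hs => (hc hs).1
      · exact fun s hs => ((hCl s).1 (hc hs).2.1).isCompact
      · exact fun s hs => (hCl s).1 (hc hs).2.1
    · intro k y hy s hs
      exact (hc hs).2.2 k y (hy s hs)) K hKsub
  refine ⟨M, ⟨hM.1, hMK.trans hKs, fun M' hM' hs => Set.Subset.antisymm hM' (hM.2 hs hM')⟩, ?_⟩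
  intro y hy k n
  have h1 : y ∈ closure (Set.range (fun k : ℤ => sh k x)) := hMK hy
  obtain ⟨z, hz, j₀, rfl⟩ := mem_closure_iff.1 h1 _
    (isOpen_cyl n k (fun i => y (k + i))) (fun i _ => rfl)
  refine ⟨k + j₀, fun i hi => ?_⟩
  have h2 := hz i hi
  simp only [sh] at h2
  rw [← h2]
  congr 1
  ring

end Pool.Agent.E8helper52.FS
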