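import Pool.Agent.E8helper92.FS.Stm2

/-! Project FS, piece ZOR. -/

set_option autoImplicit false

namespace Pool.Agent.E8helper52.FS

open Pool.Agent.Helper894.FS
open Pool.Agent.E8helper92.FS

theorem zor : S_ZOR := by
  intro A hA ι D hD K hKc hKi hKD
  letI : TopologicalSpace A := ⊥
  haveI : DiscreteTopology A := ⟨rfl⟩
  haveI : Finite A := hA
  have hCl : ∀ M : Set (ℤ → A), Cl M ↔ IsClosed M := fun M => Iff.rfl
  obtain ⟨M, hMK, hM⟩ := zorn_superset_nonempty
    {M : Set (ℤ → A) | Cl M ∧ Inv M ∧ ∀ i, (M ∩ D i).Nonempty} (by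
    intro c hc hchain hne
    refine ⟨⋂₀ c, ⟨(hCl _).2 (isClosed_sInter fun s hs => (hCl s).1 (hc hs).1), ?_, ?_⟩,
      fun s hs => Set.sInter_subset_of_mem hs⟩
    · intro k y hy s hs
      exact (hc hs).2.1 k y (hy s hs)
    · intro i
      haveI : Nonempty c := hne.to_subtype
      have h1 : (⋂ s : c, ((s : Set (ℤ → A)) ∩ D i)).Nonempty := by
        refine IsCompact.nonempty_iInter_of_directed_nonempty_isCompact_isClosed _ ?_ ?_ ?_ ?_
        · intro s t
          rcases hchain.total s.2 t.2 with h | h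
          · exact ⟨s, Set.Subset.refl _, Set.inter_subset_inter_left _ h⟩
          · exact ⟨t, Set.inter_subset_inter_left _ h, Set.Subset.refl _⟩
        · exact fun s => (hc s.2).2.2 i
        · exact fun s => (((hCl _).1 (hc s.2).1).inter ((hCl _).1 (hD i))).isCompact
        · exact fun s => ((hCl _).1 (hc s.2).1).inter ((hCl _).1 (hD i))
      obtain ⟨z, hz⟩ := h1
      rw [Set.mem_iInter] at hz
      obtain ⟨s₀, hs₀⟩ := hne
      exact ⟨z, fun s hs => (hz ⟨s, hs⟩).1, (hz ⟨s₀, hs₀⟩).2⟩) K ⟨hKc, hKi, hKD⟩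
  exact ⟨M, hMK, hM.1.1, hM.1.2.1, hM.1.2.2,
    fun Y' hY' h1 h2 h3 => Set.Subset.antisymm hY' (hM.2 ⟨h1, h2, h3⟩ hY')⟩

end Pool.Agent.E8helper52.FS
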